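import Pool.Agent.H69.LQ.Lib
import Pool.Agent.H69.LNN.Targets

/-!
# RT2: reduction to the sphere for arbitrary test functions
-/

set_option autoImplicit false

open MeasureTheory Metric Set
open scoped ENNReal

open Pool.Agent.H85.LK (E adm lam Ann)
open Pool.Agent.H69.LQ Pool.Agent.H69.LNN

namespace Pool.Agent.H40.LNN

/-- the mass beyond `1` on a ray -/
theorem wr_ge (N : ℕ) (L : ℝ) (f : ℝ → ℝ) (hf : Continuous f) (hp : Continuous (ph N L 1))
    (hNP : 0 < NP N L) :
    ∫ r in (1 : ℝ)..bb N, r ^ (N - 3) * f r ^ 2 ≤ Wr N L f := by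
  have hi : ∀ a b : ℝ, IntervalIntegrable (fun r : ℝ => r ^ (N - 3) * f r ^ 2) volume a b :=
    fun a b => Continuous.intervalIntegrable (by fun_prop) a b
  have h1 : Mr N f = (∫ r in (0 : ℝ)..1, r ^ (N - 3) * f r ^ 2) +
      ∫ r in (1 : ℝ)..bb N, r ^ (N - 3) * f r ^ 2 :=
    (intervalIntegral.integral_add_adjacent_intervals (hi 0 1) (hi 1 (bb N))).symm
  set t := Tr N L f with ht
  have h2 : ∫ r in (0 : ℝ)..1, r ^ (N - 3) * (f r * ph N L 1 r) = NP N L * t := by
    rw [ht]
    unfold Tr
    field_simp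
  have h3 : 0 ≤ ∫ r in (0 : ℝ)..1, r ^ (N - 3) * (f r - t * ph N L 1 r) ^ 2 := by
    apply intervalIntegral.integral_nonneg zero_le_one
    intro r hr
    have := hr.1
    positivity
  have h4 : ∫ r in (0 : ℝ)..1, r ^ (N - 3) * (f r - t * ph N L 1 r) ^ 2 =
      (∫ r in (0 : ℝ)..1, r ^ (N - 3) * f r ^ 2) -
        2 * t * (∫ r in (0 : ℝ)..1, r ^ (N - 3) * (f r * ph N L 1 r)) +
        t ^ 2 * NP N L := by
    unfold NP
    rw [← intervalIntegral.integral_const_mul, ← intervalIntegral.integral_const_mul,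
      ← intervalIntegral.integral_sub, ← intervalIntegral.integral_add]
    · refine intervalIntegral.integral_congr fun r _ => ?_
      ring
    · exact Continuous.intervalIntegrable (by fun_prop) _ _
    · exact Continuous.intervalIntegrable (by fun_prop) _ _
    · exact Continuous.intervalIntegrable (by fun_prop) _ _
    · exact Continuous.intervalIntegrable (by fun_prop) _ _
  rw [h4, h2] at h3
  unfold Wr
  rw [h1, ← ht]
  nlinarith

/-- the derivative is determined by the values on the closed ball -/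
theorem fderiv_eq {N : ℕ} {u v : E N → ℝ} (hu : ContDiff ℝ (⊤ : ℕ∞) u)
    (hv : ContDiff ℝ (⊤ : ℕ∞) v) (h : ∀ x, ‖x‖ ≤ 1 → u x = v x) (θ : Sp N) :
    fderiv ℝ u (θ : E N) = fderiv ℝ v (θ : E N) := by
  have hin : ∀ x : E N, ‖x‖ < 1 → fderiv ℝ u x = fderiv ℝ v x := by
    intro x hx
    apply Filter.EventuallyEq.fderiv_eq
    have : ball (0 : E N) 1 ∈ nhds x := isOpen_ball.mem_nhds (by
      rw [mem_ball_zero_iff]
      exact hx)
    filter_upwards [this] with z hz
    rw [mem_ball_zero_iff] at hz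
    exact h z hz.le
  have hcu : Continuous (fderiv ℝ u) := hu.continuous_fderiv (by simp)
  have hcv : Continuous (fderiv ℝ v) := hv.continuous_fderiv (by simp)
  have hcl : IsClosed {x : E N | fderiv ℝ u x = fderiv ℝ v x} := isClosed_eq hcu hcv
  have hsub : closure (ball (0 : E N) 1) ⊆ {x : E N | fderiv ℝ u x = fderiv ℝ v x} := by
    apply closure_minimal _ hcl
    intro x hx
    rw [mem_ball_zero_iff] at hx
    exact hin x hx
  apply hsub
  rw [closure_ball (0 : E N) one_ne_zero, mem_closedBall_zero_iff]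
  exact (norm_sp θ).le

theorem Gs_eq {N : ℕ} {u v : E N → ℝ} (hu : ContDiff ℝ (⊤ : ℕ∞) u)
    (hv : ContDiff ℝ (⊤ : ℕ∞) v) (h : ∀ x, ‖x‖ ≤ 1 → u x = v x) (θ : Sp N) :
    Gs u (θ : E N) = Gs v (θ : E N) := by
  unfold Gs LL
  rw [fderiv_eq hu hv h θ]

/-- the arithmetic of the last step -/
theorem arith (N : ℝ) (a w y Y EU EV Q X : ℝ) (hN : 0 ≤ N) (ha : 0 < a) (hw : 0 ≤ w) (hY : 0 ≤ Y)
    (hy : y = Y / a) (h1 : a * (X * Q + N * w) ≤ EU)
    (h2 : EU - N / 8 * (2 * a * w) + N * Y ≤ EV) :
    a * (X * Q + N / 2 * (w + y)) ≤ EV := by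
  have h3 : a * y = Y := by
    rw [hy]
    field_simp
  have h4 : a * (X * Q + N / 2 * (w + y)) = a * (X * Q + N * w) - N / 2 * (a * w) + N / 2 * Y := by
    rw [← h3]
    ring
  rw [h4]
  have h5 : 0 ≤ a * w := by positivity
  nlinarith [mul_nonneg hN h5, mul_nonneg hN hY]

theorem pf_RT2 (hMP : T_MP) (hPH : T_PH) (hNB : T_NB) (hCF : T_CF) (hTS : T_TS) (hRT : T_RT)
    (hFC : T_FC) (hVR : T_VR) (hVM : T_VM) : T_RT2 := by
  obtain ⟨C₀, hC₀, hRT⟩ := hRT
  obtain ⟨κF, NF, hκF, hNF, hFC⟩ := hFC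
  refine ⟨C₀, hC₀, fun K G hK hG => ?_⟩
  obtain ⟨K₂, hK₂, hRT⟩ := hRT K G hK hG
  refine ⟨K₂, hK₂, fun K₁ hK₁ => ?_⟩
  obtain ⟨κR, NR, hκR, hNR, hRT⟩ := hRT K₁ hK₁
  refine ⟨min (κR / 2) κF, max (max NF NR) 10000, lt_min (by linarith) hκF,
    le_trans (by norm_num) (le_max_right _ _), ?_⟩
  intro N L Ω R r₁ v hN hFz hΩ hΩt hsd hEy hv hvc hvs hv0
  have hN1 : NF ≤ N := (le_max_left _ _).trans ((le_max_left _ _).trans hN)
  have hN2 : NR ≤ N := (le_max_right _ _).trans ((le_max_left _ _).trans hN)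
  have hN3 : 10000 ≤ N := (le_max_right _ _).trans hN
  have hN3' : (10000 : ℝ) ≤ N := by exact_mod_cast hN3
  have h3 : 3 ≤ N := by omega
  have h2 : 2 ≤ N := by omega
  obtain ⟨hprob, har, harv, hpol⟩ := hMP N h2
  obtain ⟨hNP, -, -⟩ := hNB N L h3 hFz
  have hphc : Continuous (ph N L 1) := ((hPH N L h2).2.1 1).1.continuous
  have hvB : 0 < vB N := by
    have h1 : ar N = N * vB N := harv
    have h4 : (0 : ℝ) < N := by linarith
    rw [h1] at har
    exact (pos_iff_pos_of_mul_pos har).1 h4
  -- the radius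
  have hsq : 100 ≤ Real.sqrt N := by
    rw [show (100 : ℝ) = Real.sqrt (100 ^ 2) from (Real.sqrt_sq (by norm_num)).symm]
    apply Real.sqrt_le_sqrt
    linarith
  have hbb1 : 1 ≤ bb N := by
    unfold bb
    have : 0 ≤ 20 / Real.sqrt N := by positivity
    linarith
  have hbb2 : bb N ≤ 6 / 5 := by
    unfold bb
    have : 20 / Real.sqrt N ≤ 1 / 5 := by
      rw [div_le_div_iff₀ (by linarith) (by norm_num)]
      linarith
    linarith
  have hbbs : bb N ^ 2 ≤ 2 := by nlinarith
  have haa0 : 0 < aa N K₁ := Real.exp_pos _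
  have haa1 : aa N K₁ ≤ 1 := by
    unfold aa
    rw [Real.exp_le_one_iff]
    have : 0 ≤ K₁ / N := by
      have : 0 ≤ K₁ := by linarith
      positivity
    have h4 : -K₁ / N = -(K₁ / N) := by ring
    rw [h4]
    linarith
  -- far part
  have hsdt : volume (symmDiff Ω (ball (0 : E N) 1)) ≠ ⊤ := by
    refine ne_top_of_le_ne_top ?_ (measure_mono (symmDiff_subset_union (s := Ω)))
    exact ne_top_of_le_ne_top (ENNReal.add_ne_top.2 ⟨hΩt, measure_ball_lt_top.ne⟩)
      (measure_union_le _ _)
  have hfar : volume.real (Ω \ ball 0 1) ≤ κF * vB N := by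
    have h4 : volume.real (Ω \ ball (0 : E N) 1) ≤ volume.real (symmDiff Ω (ball (0 : E N) 1)) :=
      measureReal_mono (fun x hx => Or.inl hx) hsdt
    refine h4.trans (hsd.trans ?_)
    gcongr
    exact min_le_right _ _
  obtain ⟨u, y, hu, hyc, hycs, huv, huy, hEL⟩ :=
    hFC N L Ω v hN1 hFz hΩ hfar hΩt hv hvc hvs hv0
  have huU : TF (univ : Set (E N)) u := ⟨hu.smooth, hu.near, hu.far, fun x hx => absurd (mem_univ x) hx⟩
  obtain ⟨c1, c2, c3, c4, c5, c6, c7, c8, c9⟩ := hCF N L u h3 huU
  obtain ⟨s1, s2, s3, s4⟩ := hTS N L h3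
  -- condition on the rays of large volume
  obtain ⟨r1, r2, r3, r4, r5, r6⟩ := hVR N Ω (aa N K₁) R r₁ h3 hΩ haa0 haa1 hEy
  obtain ⟨m1, m2, m3⟩ := hVM N Ω (aa N K₁) h3 hΩ hΩt haa0 haa1
  have hcond : av ((Gk K (rho Ω))ᶜ.indicator (rho Ω)) ≤ κR := by
    have hGm : MeasurableSet (Gk K (rho Ω))ᶜ := by
      apply MeasurableSet.compl
      exact measurableSet_le r1.1 measurable_const
    have hind : BM ((Gk K (rho Ω))ᶜ.indicator (rho Ω)) := by
      obtain ⟨M, hM⟩ := r1.2
      refine ⟨r1.1.indicator hGm, M, fun θ => ?_⟩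
      by_cases h : θ ∈ (Gk K (rho Ω))ᶜ
      · rw [indicator_of_mem h]
        exact hM θ
      · rw [indicator_of_notMem h, abs_zero]
        exact (abs_nonneg _).trans (hM θ)
    have habs : BM (fun θ => |rho Ω θ - 1|) := (r1.sub (BM_const 1)).abs
    have h4 : av ((Gk K (rho Ω))ᶜ.indicator (rho Ω)) ≤ 2 * av (fun θ => |rho Ω θ - 1|) := by
      rw [← av_const_mul]
      refine av_mono hind (habs.const_mul 2) fun θ => ?_
      by_cases h : θ ∈ (Gk K (rho Ω))ᶜ
      · rw [indicator_of_mem h]
        have h5 : Real.exp K < rho Ω θ := not_le.1 h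
        have h6 : Real.exp 1 ≤ Real.exp K := Real.exp_le_exp.2 hK
        have h7 := Real.exp_one_gt_d9
        have h8 : 2 ≤ rho Ω θ := by linarith
        have h9 := le_abs_self (rho Ω θ - 1)
        linarith
      · rw [indicator_of_notMem h]
        positivity
    have h5 : av (fun θ => |rho Ω θ - 1|) ≤ κR / 2 := by
      have h6 : vB N * av (fun θ => |rho Ω θ - 1|) ≤ vB N * (κR / 2) := by
        refine m2.trans (hsd.trans ?_)
        rw [mul_comm]
        gcongr
        exact min_le_left _ _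
      exact le_of_mul_le_mul_left h6 hvB
    linarith
  have hRTu := hRT N L Ω R r₁ u hN2 hFz hΩ hEy hcond hu
  -- the functions on the sphere
  have hTT : ∀ x, ‖x‖ ≤ 1 → TT L u x = TT L v x := s4 u v huv
  have hrs : ∀ θ : Sp N, rs (TT L u) 1 θ = rs (TT L v) 1 θ := by
    intro θ
    unfold rs
    apply hTT
    rw [one_smul]
    exact (norm_sp θ).le
  have hGs : ∀ θ : Sp N, Gs (TT L u) (θ : E N) = Gs (TT L v) (θ : E N) :=
    fun θ => Gs_eq (s1 u hu.smooth) (s1 v hv) hTT θ
  have hQQ : QQ (VV L K G C₀ (rho Ω) R r₁) (TT L u) = QQ (VV L K G C₀ (rho Ω) R r₁) (TT L v) := by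
    unfold QQ
    simp only [hrs, hGs]
  -- integrability
  have hucs : HasCompactSupport u := by
    refine HasCompactSupport.of_support_subset_isCompact (isCompact_closedBall (0 : E N) (bb N)) ?_
    intro x hx
    rw [mem_closedBall_zero_iff]
    by_contra h
    push Not at h
    exact hx (hu.far x h.le)
  have hucont : Continuous u := hu.smooth.continuous
  have hu2 : Integrable (fun x => u x ^ 2) := by
    have h4 : HasCompactSupport (fun x => u x ^ 2) := by
      have := hucs.comp_left (g := fun t : ℝ => t ^ 2) (by norm_num)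
      exact this
    exact (hucont.pow 2).integrable_of_hasCompactSupport h4
  have hy2 : Integrable (fun x => y x ^ 2) := by
    have h4 : HasCompactSupport (fun x => y x ^ 2) := by
      have := hycs.comp_left (g := fun t : ℝ => t ^ 2) (by norm_num)
      exact this
    exact (hyc.pow 2).integrable_of_hasCompactSupport h4
  have hv2 : ∫ x, v x ^ 2 = (∫ x, u x ^ 2) + ∫ x, y x ^ 2 := by
    rw [← integral_add hu2 hy2]
    refine integral_congr_ae (ae_of_all _ fun x => ?_)
    simp only
    rw [huy]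
  have hWT0 : ∀ θ, 0 ≤ WT L u θ := fun θ => c6 θ hNP
  have hw0 : 0 ≤ av (WT L u) := av_nonneg hWT0
  have hY0 : 0 ≤ ∫ x, y x ^ 2 := integral_nonneg fun x => sq_nonneg _
  -- the mass outside the unit ball
  have hout : ∫ x in {x : E N | 1 ≤ ‖x‖}, u x ^ 2 ≤ 2 * ar N * av (WT L u) := by
    have hm : MeasurableSet {x : E N | 1 ≤ ‖x‖} := measurableSet_le measurable_const measurable_norm
    set g : E N → ℝ := {x : E N | 1 ≤ ‖x‖}.indicator (fun x => u x ^ 2) with hg
    have hgi : Integrable g := hu2.indicator hm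
    obtain ⟨p1, p2, p3⟩ := hpol g hgi
    rw [← integral_indicator hm, ← hg, p3]
    have h4 : av (fun θ : Sp N => ∫ r in Ioi (0 : ℝ), r ^ (N - 1) * g (r • (θ : E N))) ≤
        2 * av (WT L u) := by
      rw [← av_const_mul]
      refine integral_mono p2 (c5.const_mul 2).integrable fun θ => ?_
      set f : ℝ → ℝ := fun r => rs u r θ with hf
      have hfc : Continuous f := by
        rw [hf]
        unfold rs
        fun_prop
      have h5 := wr_ge N L f hfc hphc hNP
      have h6 : ∫ r in Ioi (0 : ℝ), r ^ (N - 1) * g (r • (θ : E N)) =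
          ∫ r in (1 : ℝ)..bb N, r ^ (N - 1) * f r ^ 2 := by
        rw [intervalIntegral.integral_of_le hbb1, ← integral_Icc_eq_integral_Ioc,
          ← integral_indicator measurableSet_Ioi, ← integral_indicator measurableSet_Icc]
        refine integral_congr_ae (ae_of_all _ fun r => ?_)
        simp only [indicator, mem_Ioi, mem_Icc]
        by_cases hr0 : 0 < r
        · rw [if_pos hr0]
          have hnr : ‖r • (θ : E N)‖ = r := by rw [norm_smul_sp, abs_of_pos hr0]
          by_cases hr1 : 1 ≤ r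
          · have hgr : g (r • (θ : E N)) = f r ^ 2 := by
              rw [hg, indicator_of_mem (by
                show 1 ≤ ‖r • (θ : E N)‖
                rw [hnr]
                exact hr1)]
              rfl
            by_cases hr2 : r ≤ bb N
            · rw [if_pos ⟨hr1, hr2⟩, hgr]
            · rw [if_neg (fun h => hr2 h.2), hgr]
              have : f r = 0 := hu.far _ (by
                rw [hnr]
                linarith)
              rw [this]
              ring
          · rw [if_neg (fun h => hr1 h.1)]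
            rw [hg, indicator_of_notMem (by
              show ¬ (1 ≤ ‖r • (θ : E N)‖)
              rw [hnr]
              exact hr1), mul_zero]
        · rw [if_neg hr0, if_neg (fun h => hr0 (by linarith [h.1]))]
      show ∫ r in Ioi (0 : ℝ), r ^ (N - 1) * g (r • (θ : E N)) ≤ 2 * WT L u θ
      rw [h6]
      have h7 : ∫ r in (1 : ℝ)..bb N, r ^ (N - 1) * f r ^ 2 ≤
          ∫ r in (1 : ℝ)..bb N, 2 * (r ^ (N - 3) * f r ^ 2) := by
        refine intervalIntegral.integral_mono_on hbb1
          (Continuous.intervalIntegrable (by fun_prop) _ _)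
          (Continuous.intervalIntegrable (by fun_prop) _ _) fun r hr => ?_
        have hr0 : 0 ≤ r := by linarith [hr.1]
        have e1 : r ^ (N - 1) = r ^ 2 * r ^ (N - 3) := by
          rw [← pow_add]
          congr 1
          omega
        have e2 : r ^ 2 ≤ 2 := by
          have := hr.2
          nlinarith
        rw [e1]
        have e3 : 0 ≤ r ^ (N - 3) * f r ^ 2 := by positivity
        calc r ^ 2 * r ^ (N - 3) * f r ^ 2 = r ^ 2 * (r ^ (N - 3) * f r ^ 2) := by ring
          _ ≤ 2 * (r ^ (N - 3) * f r ^ 2) := by gcongr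
      rw [intervalIntegral.integral_const_mul] at h7
      have h8 : Wr N L f = WT L u θ := rfl
      rw [h8] at h5
      linarith
    calc ar N * av (fun θ : Sp N => ∫ r in Ioi (0 : ℝ), r ^ (N - 1) * g (r • (θ : E N)))
        ≤ ar N * (2 * av (WT L u)) := by gcongr
      _ = 2 * ar N * av (WT L u) := by ring
  -- conclusion
  refine ⟨av (WT L u) + (∫ x, y x ^ 2) / ar N, by positivity, ?_, ?_⟩
  · rw [hv2]
    have h4 : av (fun θ => Mr N (fun r => rs u r θ)) =
        NP N L * av (fun θ => rs (TT L v) 1 θ ^ 2) + av (WT L u) := by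
      rw [← av_const_mul, ← av_add]
      · congr 1
        funext θ
        have e1 : rs (TT L v) 1 θ = Tr N L (fun r => rs u r θ) := by
          rw [← hrs θ]
          unfold rs TT
          rw [one_smul]
        rw [e1]
        unfold WT Wr
        ring
      · have e1 : (fun θ : Sp N => NP N L * rs (TT L v) 1 θ ^ 2) =
            fun θ => NP N L * Tr N L (fun r => rs u r θ) ^ 2 := by
          funext θ
          have e2 : rs (TT L v) 1 θ = Tr N L (fun r => rs u r θ) := by
            rw [← hrs θ]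
            unfold rs TT
            rw [one_smul]
          rw [e2]
        rw [e1]
        exact (c4.pow 2).const_mul _
      · exact c5
    rw [h4] at c8
    set T2 := av (fun θ => rs (TT L v) 1 θ ^ 2) with hT2
    have hT20 : 0 ≤ T2 := av_sq_nonneg _
    have hX0 : 0 ≤ NP N L * T2 + av (WT L u) := by positivity
    have h5 : ∫ x, u x ^ 2 ≤ 2 * (ar N * (NP N L * T2 + av (WT L u))) := by
      refine c8.trans ?_
      gcongr
    have h6 : 4 * ar N * (NP N L * T2 + (av (WT L u) + (∫ x, y x ^ 2) / ar N)) =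
        4 * (ar N * (NP N L * T2 + av (WT L u))) + 4 * ∫ x, y x ^ 2 := by
      field_simp
      ring
    rw [h6]
    have h7 : 0 ≤ ar N * (NP N L * T2 + av (WT L u)) := by positivity
    linarith
  · rw [← hQQ]
    refine arith N (ar N) (av (WT L u)) _ (∫ x, y x ^ 2) (EL L u) (EL L v) _ _ (by positivity) har
      hw0 hY0 rfl hRTu ?_
    refine le_trans ?_ hEL
    have h4 : (0 : ℝ) ≤ N / 8 := by positivity
    have h5 := mul_le_mul_of_nonneg_left hout h4
    linarith

end Pool.Agent.H40.LNN
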