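import Pool.Agent.H69.LQ.Lib
import Pool.Agent.H69.LNN.Targets
import Pool.Agent.H10.LQ.O2
import Pool.Agent.H40.LNN.RT2

/-!
# CF: test functions on rays
-/

set_option autoImplicit false

open MeasureTheory Metric Set
open scoped ENNReal

open Pool.Agent.H85.LK (E adm lam Ann)
open Pool.Agent.H69.LQ Pool.Agent.H69.LNN

namespace Pool.Agent.H40.LNN

theorem bb_one_le (N : ℕ) : 1 ≤ bb N := by
  unfold bb
  have : 0 ≤ 20 / Real.sqrt N := by positivity
  linarith

theorem pow_split {N : ℕ} (h3 : 3 ≤ N) (r : ℝ) : r ^ (N - 1) = r ^ (N - 3) * r ^ 2 := by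
  rw [← pow_add]
  congr 1
  omega

theorem RRi {N : ℕ} (h3 : 3 ≤ N) (L : ℝ) (r a b : ℝ) (h : r = 0 → b = 0) :
    r ^ (N - 1) * (a ^ 2 + (((N : ℝ) - 1) / r ^ 2 - L) * b ^ 2) =
      r ^ (N - 1) * a ^ 2 + ((N : ℝ) - 1) * (r ^ (N - 3) * b ^ 2) - L * (r ^ (N - 1) * b ^ 2) := by
  by_cases hr : r = 0
  · rw [h hr]
    ring
  · rw [pow_split h3]
    field_simp
    ring

theorem BMi {N : ℕ} {F : ℝ × Sp N → ℝ} (hF : Continuous F) (a b : ℝ) :
    BM (fun θ => ∫ r in a..b, F (r, θ)) := BM_cont (by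
    exact intervalIntegral.continuous_parametric_intervalIntegral_of_continuous'
      (f := fun (θ : Sp N) (r : ℝ) => F (r, θ))
      (hF.comp (continuous_snd.prodMk continuous_fst)) a b)

/-- the angular energy for all radii -/
theorem Gs_all (hGR : T_GR) {N : ℕ} {v : E N → ℝ} (hv : Differentiable ℝ v) (r : ℝ) (θ : Sp N) :
    Gs (fun y => v (r • y)) (θ : E N) =
      r ^ 2 * (Pool.Agent.H10.LQ.gn v (r • (θ : E N)) - dr v r θ ^ 2) := by
  by_cases hr : r = 0
  · subst hr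
    unfold Gs LL
    simp
  · have h := (hGR N v hv).2 r θ hr
    unfold Pool.Agent.H10.LQ.gn
    rw [h]
    field_simp
    ring

theorem Gs_nonneg {N : ℕ} (f : E N → ℝ) (x : E N) : 0 ≤ Gs f x := by
  unfold Gs
  have : 0 ≤ ∑ i, ∑ j, LL i j f x ^ 2 :=
    Finset.sum_nonneg fun i _ => Finset.sum_nonneg fun j _ => sq_nonneg _
  linarith

/-- the derivative vanishes outside the ball -/
theorem fderiv_far {N : ℕ} {v : E N → ℝ} (hv : ContDiff ℝ (⊤ : ℕ∞) v) {R : ℝ} (hR : 0 < R)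
    (h : ∀ x, R ≤ ‖x‖ → v x = 0) (x : E N) (hx : R ≤ ‖x‖) : fderiv ℝ v x = 0 := by
  have hc : Continuous (fderiv ℝ v) := hv.continuous_fderiv (by simp)
  have hcl : IsClosed {x : E N | fderiv ℝ v x = 0} := isClosed_eq hc continuous_const
  have hsub : closure (closedBall (0 : E N) R)ᶜ ⊆ {x : E N | fderiv ℝ v x = 0} := by
    apply closure_minimal _ hcl
    intro y hy
    have h1 : v =ᶠ[nhds y] fun _ => (0 : ℝ) := by
      filter_upwards [isClosed_closedBall.isOpen_compl.mem_nhds hy] with z hz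
      apply h
      rw [mem_compl_iff, mem_closedBall_zero_iff, not_le] at hz
      exact hz.le
    show fderiv ℝ v y = 0
    rw [h1.fderiv_eq]
    simp
  apply hsub
  rw [closure_compl, interior_closedBall (0 : E N) hR.ne', mem_compl_iff, mem_ball_zero_iff,
    not_lt]
  exact hx

theorem whole {N : ℕ} (hMC : T_MC) (h2 : 2 ≤ N) {g : E N → ℝ} (hg : Continuous g) {R : ℝ}
    (hR : 0 < R) (h : ∀ x, R ≤ ‖x‖ → g x = 0) :
    ∫ x, g x = ar N * av (fun θ => ∫ r in (0 : ℝ)..R, r ^ (N - 1) * rs g r θ) := by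
  obtain ⟨-, h4, h5⟩ := hMC N g 0 R h2 hg le_rfl hR.le
  rw [← h4, ← h5]
  symm
  apply setIntegral_eq_integral_of_forall_compl_eq_zero
  intro x hx
  rw [mem_ball_zero_iff, not_lt] at hx
  exact h x hx

theorem pf_CF (hPH : T_PH) (hMC : T_MC) (hGR : T_GR) (hCO : T_CO) (hHY : T_HY) : T_CF := by
  intro N L v h3 hTF
  have h2 : 2 ≤ N := by omega
  have hB := bb_one_le N
  have hB0 : 0 < bb N := by linarith
  obtain ⟨hv, ⟨δ, hδ, hnear⟩, hfar, -⟩ := hTF
  obtain ⟨hav, hCOv⟩ := hCO N h2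
  obtain ⟨crs, cdr, hder, -⟩ := hCOv v hv
  have hph : Continuous (ph N L 1) := ((hPH N L h2).2.1 1).1.continuous
  have har : 0 ≤ ar N := ENNReal.toReal_nonneg
  have hdiff : Differentiable ℝ v := hv.differentiable (by simp)
  have hvc : Continuous v := hv.continuous
  -- the rays
  have hC1 : ∀ θ, C1 (fun r => rs v r θ) (fun r => dr v r θ) := fun θ =>
    ⟨fun r => hder r θ, cdr.comp (by fun_prop : Continuous fun r : ℝ => (r, θ))⟩
  have cf : ∀ θ, Continuous fun r => rs v r θ := fun θ =>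
    crs.comp (by fun_prop : Continuous fun r : ℝ => (r, θ))
  have cf' : ∀ θ, Continuous fun r => dr v r θ := fun θ => (hC1 θ).2
  have hRF : ∀ θ, RF N (fun r => rs v r θ) (fun r => dr v r θ) := fun θ =>
    ⟨hC1 θ, ⟨δ, hδ, fun r hr => hnear _ (by rw [norm_smul_sp]; exact hr)⟩,
      fun r hr => hfar _ (by rw [norm_smul_sp]; exact hr.trans (le_abs_self r))⟩
  have hf0 : ∀ θ, rs v 0 θ = 0 := fun θ => hnear _ (by rw [norm_smul_sp, abs_zero]; exact hδ.le)
  have hfB : ∀ θ, rs v (bb N) θ = 0 := fun θ =>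
    hfar _ (by rw [norm_smul_sp]; exact le_abs_self _)
  -- the continuous functions
  have cG : Continuous fun q : ℝ × Sp N => rs (Pool.Agent.H10.LQ.gn v) q.1 q.2 :=
    Pool.Agent.H10.LQ.rs_cont2 (Pool.Agent.H10.LQ.gn_cont hv)
  have c1 : Continuous fun q : ℝ × Sp N => q.1 ^ (N - 1) * dr v q.1 q.2 ^ 2 := by fun_prop
  have c2 : Continuous fun q : ℝ × Sp N => q.1 ^ (N - 3) * rs v q.1 q.2 ^ 2 := by fun_prop
  have c3 : Continuous fun q : ℝ × Sp N => q.1 ^ (N - 1) * rs v q.1 q.2 ^ 2 := by fun_prop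
  have c4 : Continuous fun q : ℝ × Sp N =>
      q.1 ^ (N - 1) * rs (Pool.Agent.H10.LQ.gn v) q.1 q.2 := by fun_prop
  have c5 : Continuous fun q : ℝ × Sp N => q.1 ^ (N - 3) * (rs v q.1 q.2 * ph N L 1 q.1) := by
    fun_prop
  have b1 := BMi c1 0 (bb N)
  have b2 := BMi c2 0 (bb N)
  have b3 := BMi c3 0 (bb N)
  have b4 := BMi c4 0 (bb N)
  have b5 := BMi c5 0 1
  have i1 : ∀ θ, IntervalIntegrable (fun r => r ^ (N - 1) * dr v r θ ^ 2) volume 0 (bb N) :=
    fun θ => Continuous.intervalIntegrable (by have := cf' θ; fun_prop) _ _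
  have i2 : ∀ θ, IntervalIntegrable (fun r => r ^ (N - 3) * rs v r θ ^ 2) volume 0 (bb N) :=
    fun θ => Continuous.intervalIntegrable (by have := cf θ; fun_prop) _ _
  have i3 : ∀ θ, IntervalIntegrable (fun r => r ^ (N - 1) * rs v r θ ^ 2) volume 0 (bb N) :=
    fun θ => Continuous.intervalIntegrable (by have := cf θ; fun_prop) _ _
  have i4 : ∀ θ, IntervalIntegrable
      (fun r => r ^ (N - 1) * rs (Pool.Agent.H10.LQ.gn v) r θ) volume 0 (bb N) := fun θ =>
    (c4.comp (by fun_prop : Continuous fun r : ℝ => (r, θ))).intervalIntegrable _ _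
  have hRR : ∀ θ, RR N L (fun r => rs v r θ) (fun r => dr v r θ) =
      (∫ r in (0 : ℝ)..bb N, r ^ (N - 1) * dr v r θ ^ 2) +
        ((N : ℝ) - 1) * (∫ r in (0 : ℝ)..bb N, r ^ (N - 3) * rs v r θ ^ 2) -
        L * ∫ r in (0 : ℝ)..bb N, r ^ (N - 1) * rs v r θ ^ 2 := by
    intro θ
    unfold RR
    rw [← intervalIntegral.integral_const_mul, ← intervalIntegral.integral_const_mul,
      ← intervalIntegral.integral_add (i1 θ) ((i2 θ).const_mul _),
      ← intervalIntegral.integral_sub ((i1 θ).add ((i2 θ).const_mul _)) ((i3 θ).const_mul _)]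
    refine intervalIntegral.integral_congr fun r _ => ?_
    exact RRi h3 L r _ _ fun hr => by rw [hr]; exact hf0 θ
  have hBRR : BM (fun θ => RR N L (fun r => rs v r θ) (fun r => dr v r θ)) := by
    have h := (b1.add (b2.const_mul ((N : ℝ) - 1))).sub (b3.const_mul L)
    have h6 : (fun θ => RR N L (fun r => rs v r θ) (fun r => dr v r θ)) = fun θ =>
        (∫ r in (0 : ℝ)..bb N, r ^ (N - 1) * dr v r θ ^ 2) +
        ((N : ℝ) - 1) * (∫ r in (0 : ℝ)..bb N, r ^ (N - 3) * rs v r θ ^ 2) -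
        L * ∫ r in (0 : ℝ)..bb N, r ^ (N - 1) * rs v r θ ^ 2 := funext hRR
    rw [h6]
    exact h
  have hBM : BM (fun θ => Mr N (fun r => rs v r θ)) := b2
  have hBT : BM (fun θ => Tr N L (fun r => rs v r θ)) := b5.const_mul _
  have hBW : BM (WT L v) := by
    have h := hBM.sub ((hBT.pow 2).const_mul (NP N L))
    exact h
  -- polar coordinates
  have hvv : ∫ x, v x ^ 2 = ar N *
      av (fun θ => ∫ r in (0 : ℝ)..bb N, r ^ (N - 1) * rs v r θ ^ 2) :=
    whole hMC h2 (g := fun x => v x ^ 2) (hvc.pow 2) hB0 fun x hx => by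
      show v x ^ 2 = 0
      rw [hfar x hx]
      norm_num
  have hgg : ∫ x, ‖fderiv ℝ v x‖ ^ 2 = ar N *
      av (fun θ => ∫ r in (0 : ℝ)..bb N, r ^ (N - 1) * rs (Pool.Agent.H10.LQ.gn v) r θ) :=
    whole hMC h2 (g := Pool.Agent.H10.LQ.gn v) (Pool.Agent.H10.LQ.gn_cont hv) hB0 fun x hx => by
      unfold Pool.Agent.H10.LQ.gn
      rw [fderiv_far hv hB0 hfar x hx]
      simp
  have hGs : ∀ (r : ℝ) (θ : Sp N), r ^ (N - 3) * Gs (fun y => v (r • y)) (θ : E N) =
      r ^ (N - 1) * rs (Pool.Agent.H10.LQ.gn v) r θ - r ^ (N - 1) * dr v r θ ^ 2 := by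
    intro r θ
    rw [Gs_all hGR hdiff, pow_split h3]
    unfold rs
    ring
  -- the angular part
  have hang : ∫ r in (0 : ℝ)..bb N,
      r ^ (N - 3) * av (fun θ : Sp N => Gs (fun y => v (r • y)) (θ : E N)) =
      av (fun θ => ∫ r in (0 : ℝ)..bb N, r ^ (N - 1) * rs (Pool.Agent.H10.LQ.gn v) r θ) -
        av (fun θ => ∫ r in (0 : ℝ)..bb N, r ^ (N - 1) * dr v r θ ^ 2) := by
    rw [← av_sub b4 b1]
    have h6 : (fun θ => (∫ r in (0 : ℝ)..bb N, r ^ (N - 1) * rs (Pool.Agent.H10.LQ.gn v) r θ) -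
        ∫ r in (0 : ℝ)..bb N, r ^ (N - 1) * dr v r θ ^ 2) = fun θ =>
        ∫ r in (0 : ℝ)..bb N, (r ^ (N - 1) * rs (Pool.Agent.H10.LQ.gn v) r θ -
          r ^ (N - 1) * dr v r θ ^ 2) := by
      funext θ
      exact (intervalIntegral.integral_sub (i4 θ) (i1 θ)).symm
    rw [h6]
    have h7 := Pool.Agent.H10.LQ.fub (c4.sub c1) hB0.le
    refine Eq.trans ?_ h7.symm
    refine intervalIntegral.integral_congr fun r _ => ?_
    show r ^ (N - 3) * av (fun θ : Sp N => Gs (fun y => v (r • y)) (θ : E N)) =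
      av (fun θ => r ^ (N - 1) * rs (Pool.Agent.H10.LQ.gn v) r θ - r ^ (N - 1) * dr v r θ ^ 2)
    rw [← av_const_mul]
    congr 1
    funext θ
    exact hGs r θ
  refine ⟨hRF, hBRR, hBM, hBT, hBW, ?_, ?_, ?_, ?_⟩
  · intro θ hNP
    refine le_trans ?_ (wr_ge N L (fun r => rs v r θ) (cf θ) hph hNP)
    apply intervalIntegral.integral_nonneg hB
    intro r hr
    have h6 : 0 ≤ r := by linarith [hr.1]
    positivity
  · unfold EL
    rw [hang, hvv, hgg]
    have h6 : av (fun θ => RR N L (fun r => rs v r θ) (fun r => dr v r θ)) =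
        av (fun θ => ∫ r in (0 : ℝ)..bb N, r ^ (N - 1) * dr v r θ ^ 2) +
        ((N : ℝ) - 1) * av (fun θ => Mr N (fun r => rs v r θ)) -
        L * av (fun θ => ∫ r in (0 : ℝ)..bb N, r ^ (N - 1) * rs v r θ ^ 2) := by
      rw [← av_const_mul, ← av_const_mul, ← av_add b1 (hBM.const_mul _),
        ← av_sub (b1.add (hBM.const_mul _)) (b3.const_mul L)]
      congr 1
      funext θ
      exact hRR θ
    rw [h6]
    ring
  · rw [hvv]
    have h6 : av (fun θ => ∫ r in (0 : ℝ)..bb N, r ^ (N - 1) * rs v r θ ^ 2) ≤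
        bb N ^ 2 * av (fun θ => Mr N (fun r => rs v r θ)) := by
      rw [← av_const_mul]
      refine av_mono b3 (hBM.const_mul _) fun θ => ?_
      unfold Mr
      rw [← intervalIntegral.integral_const_mul]
      refine intervalIntegral.integral_mono_on hB0.le (i3 θ) ((i2 θ).const_mul _) fun r hr => ?_
      rw [pow_split h3]
      have h7 : r ^ 2 ≤ bb N ^ 2 := pow_le_pow_left₀ hr.1 hr.2 2
      have h8 : 0 ≤ r ^ (N - 3) * rs v r θ ^ 2 := by
        have := hr.1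
        positivity
      nlinarith [mul_le_mul_of_nonneg_right h7 h8]
    calc ar N * av (fun θ => ∫ r in (0 : ℝ)..bb N, r ^ (N - 1) * rs v r θ ^ 2)
        ≤ ar N * (bb N ^ 2 * av (fun θ => Mr N (fun r => rs v r θ))) :=
          mul_le_mul_of_nonneg_left h6 har
      _ = bb N ^ 2 * (ar N * av (fun θ => Mr N (fun r => rs v r θ))) := by ring
  · rw [hgg]
    show ((N : ℝ) - 2) ^ 2 / 4 * (ar N * av (fun θ => Mr N (fun r => rs v r θ))) ≤ _
    have h6 : ((N : ℝ) - 2) ^ 2 / 4 * av (fun θ => Mr N (fun r => rs v r θ)) ≤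
        av (fun θ => ∫ r in (0 : ℝ)..bb N, r ^ (N - 1) * rs (Pool.Agent.H10.LQ.gn v) r θ) := by
      rw [← av_const_mul]
      refine av_mono (hBM.const_mul _) b4 fun θ => ?_
      have h7 : ∫ r in (0 : ℝ)..bb N, r ^ (N - 1) * dr v r θ ^ 2 ≤
          ∫ r in (0 : ℝ)..bb N, r ^ (N - 1) * rs (Pool.Agent.H10.LQ.gn v) r θ := by
        refine intervalIntegral.integral_mono_on hB0.le (i1 θ) (i4 θ) fun r hr => ?_
        have h8 := hGs r θ
        have h9 : 0 ≤ r ^ (N - 3) * Gs (fun y => v (r • y)) (θ : E N) :=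
          mul_nonneg (pow_nonneg hr.1 _) (Gs_nonneg _ _)
        linarith
      refine le_trans ?_ h7
      have h8 := hHY N (bb N) (fun r => rs v r θ) (fun r => dr v r θ) h3 hB0 (hC1 θ)
      have h9 : ∫ r in (0 : ℝ)..bb N,
          r ^ (N - 1) * (dr v r θ ^ 2 + ((N : ℝ) - 1) / r ^ 2 * rs v r θ ^ 2) =
          (∫ r in (0 : ℝ)..bb N, r ^ (N - 1) * dr v r θ ^ 2) +
            ((N : ℝ) - 1) * ∫ r in (0 : ℝ)..bb N, r ^ (N - 3) * rs v r θ ^ 2 := by
        rw [← intervalIntegral.integral_const_mul,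
          ← intervalIntegral.integral_add (i1 θ) ((i2 θ).const_mul _)]
        refine intervalIntegral.integral_congr fun r _ => ?_
        have h10 := RRi h3 0 r (dr v r θ) (rs v r θ) fun hr => by rw [hr]; exact hf0 θ
        simpa using h10
      rw [h9, hfB θ] at h8
      unfold Mr
      nlinarith [h8]
    calc ((N : ℝ) - 2) ^ 2 / 4 * (ar N * av (fun θ => Mr N (fun r => rs v r θ)))
        = ar N * (((N : ℝ) - 2) ^ 2 / 4 * av (fun θ => Mr N (fun r => rs v r θ))) := by ring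
      _ ≤ _ := mul_le_mul_of_nonneg_left h6 har

end Pool.Agent.H40.LNN
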