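import Pool.Agent.H69.LQ.Lib
import Pool.Agent.H69.LNN.Targets
import Pool.Agent.H69.LNN.Lib

/-!
# RT: reduction to the sphere
-/

set_option autoImplicit false

open MeasureTheory Metric Set
open scoped ENNReal

open Pool.Agent.H85.LK (E adm lam Ann)
open Pool.Agent.H69.LQ Pool.Agent.H69.LNN

namespace Pool.Agent.H40.LNN.RT

theorem BM_lg {N : ℕ} {ρ : Sp N → ℝ} (h : BM ρ) : BM (fun θ => Real.log (max (ρ θ) 1)) := by
  refine BM_comp_le h (g := fun t => Real.log (max t 1))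
    (Real.measurable_log.comp (measurable_id.max measurable_const)) fun M => ⟨M, fun t ht => ?_⟩
  show |Real.log (max t 1)| ≤ M
  have h1 : 1 ≤ max t 1 := le_max_right _ _
  rw [abs_of_nonneg (Real.log_nonneg h1)]
  have h2 : Real.log (max t 1) ≤ max t 1 - 1 := Real.log_le_sub_one_of_pos (by linarith)
  rcases le_total t 1 with h3 | h3
  · rw [max_eq_right h3] at h2 ⊢
    rw [Real.log_one]
    exact (abs_nonneg t).trans ht
  · rw [max_eq_left h3] at h2 ⊢
    linarith [le_abs_self t]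

/-- the real arithmetic for the exponent -/
theorem expo (N ρ B C₀ : ℝ) (hN : 10000 ≤ N) (hρ : 1 ≤ ρ) (hC : 1 ≤ C₀)
    (hB : Real.log ρ ≤ 20 * Real.sqrt N) (hb : B = -(N / 2) * (Real.log ρ + C₀)) :
    2 / (N - 2) * (2 * N - 1 - B) ≤ Real.log ρ + (6 + 2 * C₀) := by
  have h1 : 0 ≤ Real.log ρ := Real.log_nonneg hρ
  have h2 : 0 < N - 2 := by linarith
  have hsq : 100 ≤ Real.sqrt N := by
    rw [show (100 : ℝ) = Real.sqrt (100 ^ 2) from (Real.sqrt_sq (by norm_num)).symm]
    apply Real.sqrt_le_sqrt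
    linarith
  have hss : Real.sqrt N * Real.sqrt N = N := Real.mul_self_sqrt (by linarith)
  rw [hb, div_mul_eq_mul_div, div_le_iff₀ h2]
  nlinarith [mul_nonneg h1 h2.le]

theorem pf_RT (hMP : T_MP) (hNB : T_NB) (hRB : T_RB) (hRG : T_RG) (hCF : T_CF) (hAG : T_AG)
    (hVR : T_VR) : T_RT := by
  obtain ⟨C₀, NB, hC₀, hNB3, hRB⟩ := hRB
  refine ⟨C₀, hC₀, fun K G hK hG => ?_⟩
  obtain ⟨K₂, hK₂, hRG⟩ := hRG K (1 / 1000) 32 G hK (by norm_num) (by norm_num) (by norm_num) hG
  refine ⟨K₂, hK₂, fun K₁ hK₁ => ?_⟩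
  obtain ⟨NG, hNG3, hRG⟩ := hRG K₁ hK₁
  refine ⟨Real.exp (-(7 + 2 * C₀)), max (max NB NG) 10000, Real.exp_pos _,
    le_trans (by norm_num) (le_max_right _ _), ?_⟩
  intro N L Ω R r₁ v hN hFz hΩ hEy hκ hTF
  have hN1 : NB ≤ N := (le_max_left _ _).trans ((le_max_left _ _).trans hN)
  have hN2 : NG ≤ N := (le_max_right _ _).trans ((le_max_left _ _).trans hN)
  have hN3 : 10000 ≤ N := (le_max_right _ _).trans hN
  have hN3' : (10000 : ℝ) ≤ N := by exact_mod_cast hN3
  have h3 : 3 ≤ N := by omega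
  have h2 : 2 ≤ N := by omega
  obtain ⟨hprob, har, -, -⟩ := hMP N h2
  obtain ⟨hNP, -, -⟩ := hNB N L h3 hFz
  have haa0 : 0 < aa N K₁ := Real.exp_pos _
  have haa1 : aa N K₁ ≤ 1 := by
    unfold aa
    rw [Real.exp_le_one_iff]
    have : 0 ≤ K₁ / N := by
      have : 0 ≤ K₁ := by linarith
      positivity
    have h4 : -K₁ / N = -(K₁ / N) := by ring
    rw [h4]
    linarith
  have hTU : TF (univ : Set (E N)) v :=
    ⟨hTF.smooth, hTF.near, hTF.far, fun x hx => absurd (mem_univ x) hx⟩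
  obtain ⟨c1, c2, c3, c4, c5, c6, c7, -, -⟩ := hCF N L v h3 hTU
  obtain ⟨r1, r2, r3, r4, r5, r6⟩ := hVR N Ω (aa N K₁) R r₁ h3 hΩ haa0 haa1 hEy
  have hgk : MeasurableSet {θ : Sp N | rho Ω θ ≤ Real.exp K} :=
    measurableSet_le r1.1 measurable_const
  -- abbreviations
  set T : Sp N → ℝ := fun θ => Tr N L (fun r => rs v r θ) with hT
  have hTT : ∀ θ, rs (TT L v) 1 θ = T θ := by
    intro θ
    show TT L v ((1 : ℝ) • (θ : E N)) = _
    rw [one_smul]
    rfl
  set lg : Sp N → ℝ := fun θ => Real.log (max (rho Ω θ) 1) with hlg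
  have hlgB : BM lg := BM_lg r1
  have hlgo : ∀ θ, Real.exp K < rho Ω θ → lg θ = Real.log (rho Ω θ) ∧ 1 ≤ rho Ω θ := by
    intro θ hθ
    have h4 : 1 ≤ rho Ω θ := (Real.one_le_exp (by linarith)).trans hθ.le
    exact ⟨by rw [hlg]; show Real.log (max (rho Ω θ) 1) = _; rw [max_eq_left h4], h4⟩
  set V : Sp N → ℝ := VV L K G C₀ (rho Ω) R r₁ with hV
  have hVB : BM V := by
    have b1 : BM (hR R) := BM_hR r2 ⟨aa N K₁, haa0, hEy.lo⟩
    have b2 : BM (fun θ => be N L * (ht (hR R θ) + 1 / 1000 * ht (hR R θ) ^ 2) -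
        G * r₁ θ ^ N) :=
      (((BM_ht b1).add (((BM_ht b1).pow 2).const_mul _)).const_mul _).sub ((r3.pow N).const_mul G)
    have b3 : BM (fun θ => 1 / 2 * (lg θ + C₀)) := (hlgB.add (BM_const C₀)).const_mul _
    have b4 := BM_ite hgk b2 b3
    have h4 : V = fun θ => @ite ℝ (rho Ω θ ≤ Real.exp K) (Classical.propDecidable _)
        (be N L * (ht (hR R θ) + 1 / 1000 * ht (hR R θ) ^ 2) - G * r₁ θ ^ N)
        (1 / 2 * (lg θ + C₀)) := by
      funext θ
      rw [hV]
      unfold VV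
      by_cases h : rho Ω θ ≤ Real.exp K
      · rw [if_pos h, if_pos h]
      · rw [if_neg h, if_neg h, (hlgo θ (not_le.1 h)).1]
    rw [h4]
    exact b4
  set cw : Sp N → ℝ := fun θ => @ite ℝ (rho Ω θ ≤ Real.exp K) (Classical.propDecidable _)
    (32 * (N : ℝ)) (-((N : ℝ) / 2) * (lg θ + C₀)) with hcw
  have hcwB : BM cw := BM_ite hgk (BM_const _) ((hlgB.add (BM_const C₀)).const_mul _)
  set Φ : Sp N → ℝ := fun θ => 2 / ((N : ℝ) - 2) * (2 * N - 1 - cw θ) with hΦ
  have hΦB : BM Φ := ((BM_const (2 * (N : ℝ) - 1)).sub hcwB).const_mul _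
  -- the pointwise inequality
  have hpt : ∀ θ, -((N : ℝ) * NP N L) * (V θ * T θ ^ 2) + cw θ * WT L v θ ≤
      RR N L (fun r => rs v r θ) (fun r => dr v r θ) := by
    intro θ
    have hSm : MeasurableSet (Sr Ω θ) := by
      have : IsOpen (Sr Ω θ) := hΩ.preimage (by fun_prop : Continuous fun r : ℝ => r • (θ : E N))
      exact this.measurableSet
    have hoff : ∀ r, 0 < r → r ∉ Sr Ω θ → rs v r θ = 0 := fun r _ hr => hTF.off _ hr
    by_cases h : rho Ω θ ≤ Real.exp K
    · have hfR : rs v (R θ) θ = 0 := by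
        rcases lt_or_ge (R θ) (bb N) with h4 | h4
        · exact hTF.off _ (hEy.out θ h4)
        · exact (c1 θ).far _ h4
      have hfr : rs v (r₁ θ) θ = 0 := by
        rcases (hEy.nn θ).lt_or_eq with h4 | h4
        · exact hTF.off _ (hEy.hole θ h4)
        · obtain ⟨δ, hδ, hn⟩ := (c1 θ).near
          apply hn
          rw [← h4, abs_zero]
          exact hδ.le
      have h5 := hRG N L (R θ) (r₁ θ) (fun r => rs v r θ) (fun r => dr v r θ) (Sr Ω θ) hN2 hFz
        (c1 θ) hSm hoff h (hEy.lo θ) (hEy.hi θ) (fun r a1 a2 => hEy.ins θ r a1 a2) hfR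
        (hEy.nn θ) (hEy.le θ) hfr
      have hVθ : V θ = be N L * (ht ((N : ℝ) * Real.log (R θ)) +
          1 / 1000 * ht ((N : ℝ) * Real.log (R θ)) ^ 2) - G * r₁ θ ^ N := by
        rw [hV]
        unfold VV
        rw [if_pos h]
        rfl
      have hcθ : cw θ = 32 * (N : ℝ) := if_pos h
      have hWθ : WT L v θ = Wr N L (fun r => rs v r θ) := rfl
      have hTθ : T θ = Tr N L (fun r => rs v r θ) := rfl
      rw [hVθ, hcθ, hWθ, hTθ]
      linarith [h5]
    · have h' := not_le.1 h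
      obtain ⟨hl1, hl2⟩ := hlgo θ h'
      have h5 := hRB N L (rho Ω θ) (fun r => rs v r θ) (fun r => dr v r θ) (Sr Ω θ) hN1 hFz
        (c1 θ) hSm hoff hl2 le_rfl (r6 θ).2.2.2.2.2
      have hVθ : V θ = 1 / 2 * (Real.log (rho Ω θ) + C₀) := by
        rw [hV]
        unfold VV
        rw [if_neg h]
      have hcθ : cw θ = -((N : ℝ) / 2) * (Real.log (rho Ω θ) + C₀) := by
        rw [hcw]
        show @ite ℝ (rho Ω θ ≤ Real.exp K) (Classical.propDecidable _)
          (32 * (N : ℝ)) (-((N : ℝ) / 2) * (lg θ + C₀)) = _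
        rw [if_neg h, hl1]
      have hWθ : WT L v θ = Mr N (fun r => rs v r θ) - NP N L * T θ ^ 2 := rfl
      rw [hVθ, hcθ, hWθ]
      refine le_trans (le_of_eq ?_) h5
      ring
  -- the exponential
  have hexp : av (fun θ => Real.exp (Φ θ)) ≤ 1 := by
    have he1 : Real.exp (-1) ≤ 1 / 2 := by
      rw [Real.exp_neg]
      have : (2 : ℝ) ≤ Real.exp 1 := by linarith [Real.add_one_le_exp (1 : ℝ)]
      rw [inv_le_comm₀ (Real.exp_pos _) (by norm_num)]
      linarith
    have hind : BM (((Gk K (rho Ω))ᶜ).indicator (rho Ω)) := BM_ind r1 (meas_Gk r1).compl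
    have hp : ∀ θ, Real.exp (Φ θ) ≤ 1 / 2 +
        Real.exp (6 + 2 * C₀) * ((Gk K (rho Ω))ᶜ).indicator (rho Ω) θ := by
      intro θ
      by_cases h : rho Ω θ ≤ Real.exp K
      · have h4 : θ ∉ (Gk K (rho Ω))ᶜ := fun h' => h' h
        rw [indicator_of_notMem h4, mul_zero, add_zero]
        refine le_trans (Real.exp_le_exp.2 ?_) he1
        have hcθ : cw θ = 32 * (N : ℝ) := if_pos h
        show 2 / ((N : ℝ) - 2) * (2 * N - 1 - cw θ) ≤ -1
        rw [hcθ, div_mul_eq_mul_div, div_le_iff₀ (by linarith)]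
        linarith
      · have h' := not_le.1 h
        obtain ⟨hl1, hl2⟩ := hlgo θ h'
        have h4 : θ ∈ (Gk K (rho Ω))ᶜ := h
        rw [indicator_of_mem h4]
        have hB : Real.log (rho Ω θ) ≤ 20 * Real.sqrt N := by
          have a1 : Real.log (rho Ω θ) ≤ Real.log (bb N ^ N) :=
            Real.log_le_log (by linarith) (r6 θ).2.2.2.2.2
          have hbb : 0 < bb N := by
            unfold bb
            positivity
          have a2 : Real.log (bb N ^ N) = N * Real.log (bb N) := Real.log_pow _ _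
          have a3 : Real.log (bb N) ≤ 20 / Real.sqrt N := by
            have := Real.log_le_sub_one_of_pos hbb
            unfold bb at this ⊢
            linarith
          have hsp : 0 < Real.sqrt N := Real.sqrt_pos.2 (by linarith)
          have a4 : (N : ℝ) * (20 / Real.sqrt N) = 20 * Real.sqrt N := by
            have hss : Real.sqrt N * Real.sqrt N = N := Real.mul_self_sqrt (by linarith)
            rw [mul_div_assoc', div_eq_iff hsp.ne']
            nlinarith
          rw [a2] at a1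
          have a5 := mul_le_mul_of_nonneg_left a3 (by linarith : (0 : ℝ) ≤ N)
          linarith
        have h5 := expo N (rho Ω θ) (cw θ) C₀ hN3' hl2 hC₀ hB (by
          rw [hcw]
          show @ite ℝ (rho Ω θ ≤ Real.exp K) (Classical.propDecidable _)
            (32 * (N : ℝ)) (-((N : ℝ) / 2) * (lg θ + C₀)) = _
          rw [if_neg h, hl1])
        have h6 : Real.exp (Φ θ) ≤ Real.exp (Real.log (rho Ω θ) + (6 + 2 * C₀)) :=
          Real.exp_le_exp.2 h5
        rw [Real.exp_add, Real.exp_log (by linarith)] at h6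
        linarith
    have h4 : av (fun θ => Real.exp (Φ θ)) ≤ av (fun θ => 1 / 2 +
        Real.exp (6 + 2 * C₀) * ((Gk K (rho Ω))ᶜ).indicator (rho Ω) θ) :=
      av_mono (hΦB.comp Real.continuous_exp) ((BM_const _).add (hind.const_mul _)) hp
    have h5 : av (fun _ : Sp N => (1 / 2 : ℝ)) = 1 / 2 := by
      unfold av
      simp
    rw [av_add (BM_const _) (hind.const_mul _), av_const_mul, h5] at h4
    have h6 := mul_le_mul_of_nonneg_left hκ (Real.exp_pos (6 + 2 * C₀)).le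
    rw [← Real.exp_add, show 6 + 2 * C₀ + -(7 + 2 * C₀) = -1 by ring] at h6
    linarith
  have hlog : Real.log (av fun θ => Real.exp (Φ θ)) ≤ 0 :=
    Real.log_nonpos (av_nonneg fun θ => (Real.exp_pos _).le) hexp
  -- the means
  have hWB : BM (WT L v) := c5
  have hTB : BM (fun θ => T θ ^ 2) := c4.pow 2
  have m1 : -((N : ℝ) * NP N L) * av (fun θ => V θ * T θ ^ 2) + av (fun θ => cw θ * WT L v θ) ≤
      av (fun θ => RR N L (fun r => rs v r θ) (fun r => dr v r θ)) := by
    rw [← av_const_mul, ← av_add ((hVB.mul hTB).const_mul _) (hcwB.mul hWB)]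
    exact av_mono (((hVB.mul hTB).const_mul _).add (hcwB.mul hWB)) c2 hpt
  have m2 : av (fun θ => Mr N (fun r => rs v r θ)) =
      NP N L * av (fun θ => T θ ^ 2) + av (WT L v) := by
    rw [← av_const_mul, ← av_add (hTB.const_mul _) hWB]
    congr 1
    funext θ
    have hWθ : WT L v θ = Mr N (fun r => rs v r θ) - NP N L * T θ ^ 2 := rfl
    rw [hWθ]
    ring
  have m3 : av (fun θ => cw θ * WT L v θ) + ((N : ℝ) - 2) / 2 * av (fun θ => Φ θ * WT L v θ) =
      (2 * (N : ℝ) - 1) * av (WT L v) := by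
    rw [← av_const_mul, ← av_const_mul, ← av_add (hcwB.mul hWB) ((hΦB.mul hWB).const_mul _)]
    congr 1
    funext θ
    have hn : (N : ℝ) - 2 ≠ 0 := by linarith
    show cw θ * WT L v θ + ((N : ℝ) - 2) / 2 * (2 / ((N : ℝ) - 2) * (2 * N - 1 - cw θ) *
      WT L v θ) = _
    field_simp
    ring
  have m4 := hAG N L v Φ h3 hFz hTU hΦB
  have m5 : 0 ≤ av (WT L v) := av_nonneg fun θ => c6 θ hNP
  have hQQ : QQ V (TT L v) = av (fun θ : Sp N => Gs (TT L v) (θ : E N)) / N -
      ((N : ℝ) - 1) / N * av (fun θ => T θ ^ 2) - av (fun θ => V θ * T θ ^ 2) := by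
    unfold QQ
    simp only [hTT]
  rw [c7]
  apply mul_le_mul_of_nonneg_left _ har.le
  rw [hQQ, m2]
  have hNne : (N : ℝ) ≠ 0 := by linarith
  have m6 : (N : ℝ) * NP N L * (av (fun θ : Sp N => Gs (TT L v) (θ : E N)) / N -
      ((N : ℝ) - 1) / N * av (fun θ => T θ ^ 2) - av (fun θ => V θ * T θ ^ 2)) =
      NP N L * av (fun θ : Sp N => Gs (TT L v) (θ : E N)) -
        ((N : ℝ) - 1) * NP N L * av (fun θ => T θ ^ 2) -
        (N : ℝ) * NP N L * av (fun θ => V θ * T θ ^ 2) := by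
    field_simp
  rw [m6]
  have m7 : 0 ≤ ((N : ℝ) - 2) / 2 * (-Real.log (av fun θ => Real.exp (Φ θ)) * av (WT L v)) := by
    apply mul_nonneg (by linarith)
    apply mul_nonneg (by linarith) m5
  linarith

end Pool.Agent.H40.LNN.RT
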